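import Pool.Agent.H794.Main

/-!
# The energy density of the Hitchin section is not maximal in its Hitchin fibre

There is a closed Riemann surface `X` of genus at least two such that for every real number `C`
there are a polystable `SL(3, ℂ)`-Higgs bundle `E` and a Higgs bundle `E'` of the Hitchin
component in the same Hitchin fibre, not isomorphic to `E`, both with harmonic metrics, and a
point `p` of `X` such that, for all harmonic metrics of `E` and `E'` and every conformal metric on
`X`, the energy densities of the associated equivariant harmonic maps satisfy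
`C e(f')(p) < e(f)(p)`.
-/

set_option autoImplicit false

open Pool.Agent.Helper614.HE Pool.Agent.H794

theorem Pool.Agent.Results.MP_4caea3_gt.HitchinSectionNotMaximal.result :
    ∃ (X : Type) (_ : TopologicalSpace X) (_ : ChartedSpace ℂ X),
      IsClosedRiemannSurface X ∧ GenusAtLeastTwo X ∧ ∀ C : ℝ,
      ∃ E E' : HiggsBundle 3 X, IsPolystable E ∧ InHitchinComponent E' ∧ SameHitchinFibre E E' ∧
        ¬ Isomorphic E E' ∧ (∃ h, IsHarmonicMetric E 1 h) ∧ (∃ h', IsHarmonicMetric E' 1 h') ∧
        ∃ p : X, ∀ h h', IsHarmonicMetric E 1 h → IsHarmonicMetric E' 1 h' →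
        ∀ ρ : OpenPartialHomeomorph X ℂ → X → ℝ, IsConformalMetric X ρ →
        ∀ i i', p ∈ E.U i ∩ E'.U i' → ∀ e ∈ atlas ℂ X, p ∈ e.source →
          C * energyDensity E' ρ 1 h' i' e p < energyDensity E ρ 1 h i e p :=
  Pool.Agent.H794.final
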